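import Mathlib

namespace Pool.Agent.Results.MP_366529_co.Example

open Complex

section Defs

variable {V : Type} (G : SimpleGraph V)

/-- `pos` draws `G` in the plane with straight edges and without crossings. -/
def IsPlaneDrawing (pos : V → ℂ) : Prop :=
  Function.Injective pos ∧
    (∀ x y w, G.Adj x y → pos w ∈ segment ℝ (pos x) (pos y) → w = x ∨ w = y) ∧
    ∀ x y x' y', G.Adj x y → G.Adj x' y' → ∀ z ∈ segment ℝ (pos x) (pos y),
      z ∈ segment ℝ (pos x') (pos y') → s(x, y) = s(x', y') ∨ ∃ w, z = pos w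

/-- `R` is a rotor of order `n` of `G`, with vertices of attachment `v 0, …, v (n - 1)`. -/
def IsRotor (R : G.Subgraph) (n : ℕ) (v : ZMod n → V) : Prop :=
  Function.Injective v ∧
    (∀ x, (∃ i, x = v i) ↔ (∃ y, R.Adj x y) ∧ ∃ y, G.Adj x y ∧ ¬R.Adj x y) ∧
    ∃ (pos : V → ℂ) (ρ : ℝ) (θ : V → V), IsPlaneDrawing G pos ∧ 0 < ρ ∧
      (∀ x ∈ R.verts, ‖pos x‖ ≤ ρ) ∧
      (∀ x y, R.Adj x y → ∀ z ∈ segment ℝ (pos x) (pos y), ‖z‖ ≤ ρ) ∧
      (∀ x ∉ R.verts, ρ < ‖pos x‖) ∧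
      (∀ x y, G.Adj x y → ¬R.Adj x y → ∀ z ∈ segment ℝ (pos x) (pos y), ρ ≤ ‖z‖) ∧
      (∀ z, ‖z‖ = ρ → (((∃ x, z = pos x) ∨ ∃ x y, G.Adj x y ∧ z ∈ segment ℝ (pos x) (pos y)) ↔
        ∃ i, z = pos (v i))) ∧
      (∀ x ∈ R.verts, θ x ∈ R.verts ∧ pos (θ x) = exp (2 * Real.pi * I / n) * pos x) ∧
      (∀ x ∈ R.verts, ∀ y ∈ R.verts, R.Adj (θ x) (θ y) ↔ R.Adj x y) ∧ ∀ i, θ (v i) = v (i + 1)

/-- Flipping: keep the edges outside `R`, and reattach the edges of `R` through `σ`. -/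
def flip (R : G.Subgraph) (σ : V → V) : SimpleGraph V :=
  SimpleGraph.fromRel fun x y => (G.Adj x y ∧ ¬R.Adj x y) ∨ R.Adj (σ x) (σ y)

end Defs

noncomputable def ω : ℂ := ⟨1 / 2, Real.sqrt 3 / 2⟩

noncomputable def ι (a b : ℝ) : ℂ := a + b * ω

lemma s3 : Real.sqrt 3 ^ 2 = 3 := Real.sq_sqrt (by norm_num)

lemma ι_inj {a b c d : ℝ} (h : ι a b = ι c d) : a = c ∧ b = d := by
  have h1 := congrArg re h
  have h2 := congrArg im h
  simp [ι, ω] at h1 h2
  exact ⟨by rw [h2] at h1; linarith, h2⟩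

lemma ι_norm (a b : ℝ) : ‖ι a b‖ ^ 2 = a ^ 2 + a * b + b ^ 2 := by
  rw [Complex.sq_norm, normSq_apply]
  simp [ι, ω]
  linear_combination b ^ 2 / 4 * s3

lemma ω_eq : exp (2 * Real.pi * I / (6 : ℕ)) = ω := by
  rw [show 2 * Real.pi * I / (6 : ℕ) = (Real.pi / 3 : ℝ) * I by push_cast; ring]
  apply Complex.ext
  · rw [exp_ofReal_mul_I_re, Real.cos_pi_div_three]; rfl
  · rw [exp_ofReal_mul_I_im, Real.sin_pi_div_three]; rfl

lemma ι_rot (a b : ℝ) : ι (-b) (a + b) = ω * ι a b := by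
  apply Complex.ext <;> simp [ι, ω]
  · linear_combination b / 4 * s3
  · ring

noncomputable def pt (p : ℤ × ℤ) : ℂ := ι p.1 p.2

lemma seg {p q : ℤ × ℤ} {z : ℂ} (h : z ∈ segment ℝ (pt p) (pt q)) : ∃ s t : ℝ, 0 ≤ s ∧ 0 ≤ t ∧
    s + t = 1 ∧ z = ι (s * p.1 + t * q.1) (s * p.2 + t * q.2) := by
  obtain ⟨s, t, hs, ht, e, rfl⟩ := h
  exact ⟨s, t, hs, ht, e, by simp [pt, ι]; ring⟩

def lt (g x y : ℤ × ℤ) : Prop := g.1 * y.1 + g.2 * y.2 < g.1 * x.1 + g.2 * x.2 ∨ x = y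

instance (g x y : ℤ × ℤ) : Decidable (lt g x y) := by unfold lt; infer_instance

def cands (p q r s : ℤ × ℤ) : List (ℤ × ℤ) :=
  let d := q - p
  let e := s - r
  let l := [(d.2, -d.1), (e.2, -e.1), d, (d.2 + e.2, -d.1 - e.1), (d.2 - e.2, e.1 - d.1)]
  l ++ l.map fun g => -g

def Sep (p q r s : ℤ × ℤ) : Prop :=
  ∃ g ∈ cands p q r s, lt g p r ∧ lt g p s ∧ lt g q r ∧ lt g q s

instance (p q r s : ℤ × ℤ) : Decidable (Sep p q r s) := by unfold Sep; infer_instance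

lemma sep {p q r s : ℤ × ℤ} (h : Sep p q r s) (hpq : p ≠ q) {z : ℂ}
    (h1 : z ∈ segment ℝ (pt p) (pt q)) (h2 : z ∈ segment ℝ (pt r) (pt s)) :
    z = pt p ∨ z = pt q := by
  obtain ⟨g, -, a, b, c, d⟩ := h
  obtain ⟨s1, t1, hs, ht, e, rfl⟩ := seg h1
  obtain ⟨s2, t2, hs', ht', e', h⟩ := seg h2
  obtain ⟨e1, e2⟩ := ι_inj h
  rcases hs.eq_or_lt with rfl | hs
  · right; rw [show t1 = 1 by linarith]; simp [pt]
  rcases ht.eq_or_lt with rfl | ht
  · left; rw [show s1 = 1 by linarith]; simp [pt]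
  exfalso
  set f : ℤ × ℤ → ℝ := fun x => g.1 * x.1 + g.2 * x.2 with hf
  have k : ∀ y, lt g p y → lt g q y → f y < s1 * f p + t1 * f q := by
    intro y h1 h2
    have c : ∀ x, lt g x y → f y < f x ∨ x = y := fun x h =>
      h.imp_left fun h => by simp only [hf]; exact_mod_cast h
    have w : f y = s1 * f y + t1 * f y := by rw [← add_mul, e, one_mul]
    rcases c p h1 with h1 | rfl <;> rcases c q h2 with h2 | h2
    · nlinarith
    · subst h2; nlinarith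
    · nlinarith
    · exact absurd h2.symm hpq
  have k1 := k r a c
  have k2 := k s b d
  have : s1 * f p + t1 * f q = s2 * f r + t2 * f s := by
    simp only [hf]; linear_combination g.1 * e1 + g.2 * e2
  rcases hs'.eq_or_lt with rfl | hs'
  · rw [show t2 = 1 by linarith] at this; linarith
  · rw [this] at k1 k2
    have a1 := mul_pos hs' (sub_pos.2 k1)
    have a2 := mul_nonneg ht' (sub_pos.2 k2).le
    have a3 : (s2 + t2) * (s2 * f r + t2 * f s) = s2 * f r + t2 * f s := by rw [e', one_mul]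
    nlinarith

def PL : List (ℤ × ℤ) := [(6, 0), (0, 6), (-6, 6), (-6, 0), (0, -6), (6, -6), (2, 2), (-2, 4),
  (-4, 2), (-2, -2), (2, -4), (4, -2), (3, 0), (0, 3), (-3, 3), (-3, 0), (0, -3), (3, -3), (2, 4),
  (-4, 6), (-6, 2), (-2, -4), (4, -6), (6, -2), (5, 5), (7, 7), (-5, 10), (-7, 14), (3, -8),
  (3, -10), (6, -12), (8, -5), (10, -7), (12, -6), (-8, 0)]

def ER : List (ℕ × ℕ) := [(0, 11), (0, 18), (0, 23), (1, 6), (1, 18), (1, 19), (2, 7), (2, 19),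
  (2, 20), (3, 8), (3, 20), (3, 21), (4, 9), (4, 21), (4, 22), (5, 10), (5, 22), (5, 23), (6, 12),
  (6, 13), (6, 19), (7, 13), (7, 14), (7, 20), (8, 14), (8, 15), (8, 21), (9, 15), (9, 16), (9, 22),
  (10, 16), (10, 17), (10, 23), (11, 12), (11, 17), (11, 18), (12, 13), (12, 17), (13, 14),
  (14, 15), (15, 16), (16, 17)]

def ES : List (ℕ × ℕ) := [(0, 24), (0, 25), (24, 25), (1, 24), (1, 25), (1, 26), (1, 27), (26, 27),
  (2, 26), (2, 27), (4, 28), (4, 29), (28, 29), (28, 30), (29, 30), (5, 30), (5, 31), (5, 32),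
  (31, 32), (31, 33), (32, 33), (0, 33), (3, 34)]

def P (i : ℕ) : ℤ × ℤ := PL.getD i 0

def aR (x y : Fin 35) : Prop := (x.1, y.1) ∈ ER ∨ (y.1, x.1) ∈ ER
def aG (x y : Fin 35) : Prop := (x.1, y.1) ∈ ER ++ ES ∨ (y.1, x.1) ∈ ER ++ ES
instance : DecidableRel aR := fun _ _ => by unfold aR; infer_instance
instance : DecidableRel aG := fun _ _ => by unfold aG; infer_instance

def G : SimpleGraph (Fin 35) where
  Adj := aG
  symm := ⟨fun _ _ h => h.symm⟩
  loopless := ⟨by decide +kernel⟩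

def R : G.Subgraph where
  verts := {x | x.1 < 24}
  Adj := aR
  adj_sub := fun h => h.imp (List.mem_append_left _) (List.mem_append_left _)
  edge_vert := fun {x y} => (by decide +kernel : ∀ x y : Fin 35, aR x y → x.1 < 24) x y
  symm := ⟨fun _ _ h => h.symm⟩

def v (i : Fin 6) : Fin 35 := ⟨i, by omega⟩
def σ (x : Fin 35) : Fin 35 := if x.1 < 6 then ⟨(6 - x.1) % 6, by omega⟩ else x
def θ (x : Fin 35) : Fin 35 := if h : x.1 < 24 then ⟨x.1 / 6 * 6 + (x.1 + 1) % 6, by omega⟩ else x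

lemma P_inj : ∀ x y : Fin 35, P x = P y → x = y := by decide +kernel

lemma t1 : ∀ e ∈ ER ++ ES, ∀ e' ∈ ER ++ ES, e = e' ∨ Sep (P e.1) (P e.2) (P e'.1) (P e'.2) := by
  decide +kernel

lemma t2 : ∀ e ∈ ER ++ ES, ∀ w < 35, Sep (P e.1) (P e.2) (P w) (P w) := by decide +kernel

lemma pt_inj {x y : Fin 35} (h : pt (P x) = pt (P y)) : x = y := by
  obtain ⟨a, b⟩ := ι_inj h
  exact P_inj x y (Prod.ext (by exact_mod_cast a) (by exact_mod_cast b))

lemma plane : IsPlaneDrawing G (fun x => pt (P x)) := by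
  have ne : ∀ x y, G.Adj x y → P x ≠ P y := fun x y h e => h.ne (P_inj _ _ e)
  have wl : ∀ x y, G.Adj x y → ∃ a b : Fin 35, s(x, y) = s(a, b) ∧ G.Adj a b ∧ (a.1, b.1) ∈ ER ++ ES ∧
      segment ℝ (pt (P x)) (pt (P y)) = segment ℝ (pt (P a)) (pt (P b)) := fun x y h =>
    h.elim (fun h' => ⟨x, y, rfl, h, h', rfl⟩)
      fun h' => ⟨y, x, Sym2.eq_swap, h.symm, h', segment_symm _ _ _⟩
  refine ⟨fun x y => pt_inj, fun x y w h hw => ?_, fun x y x' y' h h' z hz hz' => ?_⟩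
  · obtain ⟨a, b, e, h, m, es⟩ := wl x y h
    have := (sep (t2 _ m w w.2) (ne _ _ h) (es ▸ hw) (left_mem_segment _ _ _)).imp pt_inj pt_inj
    rcases Sym2.eq_iff.1 e with ⟨rfl, rfl⟩ | ⟨rfl, rfl⟩
    exacts [this, this.symm]
  · obtain ⟨a, b, e, h, m, es⟩ := wl x y h
    obtain ⟨a', b', e', h', m', es'⟩ := wl x' y' h'
    rcases t1 _ m _ m' with c | c
    · left
      simp only [Prod.mk.injEq, Fin.val_inj] at c
      rw [e, e', c.1, c.2]
    · exact Or.inr ((sep c (ne _ _ h) (es ▸ hz) (es' ▸ hz')).elim (fun h => ⟨_, h⟩) fun h => ⟨_, h⟩)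

def ip (p q : ℤ × ℤ) : ℤ := 2 * p.1 * q.1 + p.1 * q.2 + p.2 * q.1 + 2 * p.2 * q.2

lemma nrm (p : ℤ × ℤ) : 2 * ‖pt p‖ ^ 2 = ip p p := by rw [pt, ι_norm, ip]; push_cast; ring

lemma t3 : ∀ x : Fin 35, (x.1 < 6 → ip (P x) (P x) = 72) ∧
    (6 ≤ x.1 → x.1 < 24 → ip (P x) (P x) < 72) ∧ (24 ≤ x.1 → 72 < ip (P x) (P x)) := by
  decide +kernel

lemma t4 : ∀ x y : Fin 35, aG x y → ¬aR x y → ∃ i : Fin 6,
    72 ≤ ip (P x) (P i) ∧ 72 ≤ ip (P y) (P i) := by decide +kernel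

lemma n1 (x : Fin 35) : (x.1 < 6 → ‖pt (P x)‖ = 6) ∧ (6 ≤ x.1 → x.1 < 24 → ‖pt (P x)‖ < 6) ∧
    (24 ≤ x.1 → 6 < ‖pt (P x)‖) := by
  have := nrm (P x)
  have h0 := norm_nonneg (pt (P x))
  refine ⟨fun h => ?_, fun h h' => ?_, fun h => ?_⟩
  · rw [(t3 x).1 h] at this
    exact (pow_left_inj₀ h0 (by norm_num) two_ne_zero).1 (by push_cast at this; linarith)
  · have t : (ip (P x) (P x) : ℝ) < 72 := by exact_mod_cast (t3 x).2.1 h h'
    nlinarith
  · have t : (72 : ℝ) < ip (P x) (P x) := by exact_mod_cast (t3 x).2.2 h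
    nlinarith

lemma outer {x y : Fin 35} (h : aG x y) (h' : ¬aR x y) {z : ℂ}
    (hz : z ∈ segment ℝ (pt (P x)) (pt (P y))) (hn : ‖z‖ ≤ 6) : ∃ i, z = pt (P (v i)) := by
  obtain ⟨i, h1, h2⟩ := t4 x y h h'
  obtain ⟨s, t, hs, ht, e, rfl⟩ := seg hz
  have h3 := (t3 (v i)).1 i.2
  change ip (P i) (P i) = 72 at h3
  refine ⟨i, ?_⟩
  change _ = ι (P i).1 (P i).2
  have h4 := ι_norm (s * (P x).1 + t * (P y).1) (s * (P x).2 + t * (P y).2)
  have h5 := pow_le_pow_left₀ (norm_nonneg _) hn 2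
  simp only [ip] at h1 h2 h3
  rify at h1 h2 h3
  have h6 := add_le_add (mul_le_mul_of_nonneg_left h1 hs) (mul_le_mul_of_nonneg_left h2 ht)
  rw [← add_mul, e] at h6
  set a := s * (P x).1 + t * (P y).1 with ha
  set b := s * (P x).2 + t * (P y).2 with hb
  have h7 : 72 ≤ 2 * a * (P i).1 + a * (P i).2 + b * (P i).1 + 2 * b * (P i).2 := by
    rw [ha, hb]; linarith
  generalize ((P i).1 : ℝ) = c at *
  generalize ((P i).2 : ℝ) = d at *
  have h8 : (a - c) ^ 2 + (a - c) * (b - d) + (b - d) ^ 2 ≤ 0 := by nlinarith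
  have e1 : a = c := by nlinarith [sq_nonneg (a - c + 2 * (b - d)), sq_nonneg (a - c)]
  have e2 : b = d := by nlinarith [sq_nonneg (b - d + 2 * (a - c)), sq_nonneg (b - d)]
  rw [e1, e2]

lemma rotor : IsRotor G R 6 v := by
  have le : ∀ x : Fin 35, x.1 < 24 → ‖pt (P x)‖ ≤ 6 := fun x h => by
    by_cases h' : x.1 < 6
    exacts [((n1 x).1 h').le, ((n1 x).2.1 (by omega) h).le]
  have bd : ∀ x : Fin 35, ‖pt (P x)‖ = 6 → ∃ i, pt (P x) = pt (P (v i)) := fun x h => by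
    by_cases h' : x.1 < 6
    · exact ⟨⟨x, h'⟩, rfl⟩
    · by_cases h2 : x.1 < 24
      exacts [absurd h ((n1 x).2.1 (by omega) h2).ne, absurd h ((n1 x).2.2 (by omega)).ne']
  have inn : ∀ x y, aR x y → segment ℝ (pt (P x)) (pt (P y)) ⊆ Metric.closedBall 0 6 :=
    fun x y h => (convex_closedBall _ _).segment_subset (by simpa using le x (R.edge_vert h))
      (by simpa using le y (R.edge_vert (h.symm : aR y x)))
  refine ⟨(by decide : ∀ i j : Fin 6, v i = v j → i = j), (by decide +kernel : ∀ x : Fin 35,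
    (∃ i : Fin 6, x = v i) ↔ (∃ y, aR x y) ∧ ∃ y, aG x y ∧ ¬aR x y), fun x => pt (P x), 6, θ,
    plane, by norm_num, le, fun x y h z hz => by simpa using inn x y h hz,
    fun x h => (n1 x).2.2 (not_lt.1 h), fun x y h h' z hz => ?_, fun z hz => ⟨?_, ?_⟩,
    fun x h => ⟨(by decide : ∀ x : Fin 35, x.1 < 24 → (θ x).1 < 24) x h, ?_⟩,
    fun x h y h' => (by decide +kernel : ∀ x : Fin 35, x.1 < 24 → ∀ y : Fin 35, y.1 < 24 →
      (aR (θ x) (θ y) ↔ aR x y)) x h y h', (by decide : ∀ i : Fin 6, θ (v i) = v (i + 1))⟩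
  · by_contra hn
    obtain ⟨i, rfl⟩ := outer h h' hz (not_le.1 hn).le
    exact hn ((n1 (v i)).1 i.2).ge
  · rintro (⟨x, rfl⟩ | ⟨x, y, h, hz'⟩)
    · exact bd x hz
    by_cases h' : aR x y
    · rw [← insert_endpoints_openSegment] at hz'
      rcases hz' with rfl | rfl | hz'
      · exact bd x hz
      · exact bd y hz
      have := (strictConvex_closedBall ℝ (0 : ℂ) 6).openSegment_subset
        (inn x y h' (left_mem_segment _ _ _)) (inn x y h' (right_mem_segment _ _ _))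
        (fun e => h.ne (pt_inj e)) hz'
      rw [interior_closedBall _ (by norm_num)] at this
      exact absurd hz (by simpa using this : ‖z‖ < 6).ne
    · exact outer h h' hz' hz.le
  · rintro ⟨i, rfl⟩; exact Or.inl ⟨_, rfl⟩
  · have := (by decide +kernel : ∀ x : Fin 35, x.1 < 24 →
      P (θ x) = (-(P x).2, (P x).1 + (P x).2)) x h
    simp only [ω_eq, pt, this, ← ι_rot]
    push_cast; rfl

def go : List (ℕ × List ℕ) → ((ℕ → ℕ) → Bool) → (ℕ → ℕ) → Bool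
  | [], k, f => k f
  | (x, ns) :: r, k, f => [0, 1, 2].any fun c =>
      (ns.all fun w => f w != c) && go r k fun w => if w = x then c else f w

lemma go_true (c : ℕ → ℕ) (hc : ∀ x, c x < 3) (k : (ℕ → ℕ) → Bool)
    (hk : ∀ f, (∀ w, f w = c w ∨ f w = 3) → k f = true) (L : List (ℕ × List ℕ))
    (hL : ∀ p ∈ L, ∀ w ∈ p.2, c w ≠ c p.1) :
    ∀ f, (∀ w, f w = c w ∨ f w = 3) → go L k f = true := by
  induction L with
  | nil => exact hk
  | cons p r ih =>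
    intro f hf
    obtain ⟨x, ns⟩ := p
    simp only [go, List.any_eq_true, Bool.and_eq_true, List.all_eq_true, bne_iff_ne]
    have := hc x
    refine ⟨c x, by simp; omega, fun w hw => ?_, ih (fun p hp => hL p (List.mem_cons_of_mem _ hp))
      _ fun w => ?_⟩
    · have := hL _ List.mem_cons_self w hw
      rcases hf w with h | h <;> simp only at this <;> omega
    · split_ifs with h
      exacts [Or.inl (h ▸ rfl), hf w]

def L1 : List (ℕ × List ℕ) := [(24, [0, 1]), (25, [0, 1, 24]), (26, [1, 2]), (27, [1, 2, 26]),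
  (28, [4]), (29, [4, 28]), (30, [5, 28, 29]), (31, [5]), (32, [5, 31]), (33, [0, 31, 32])]

def L2 : List (ℕ × List ℕ) := [(18, [0, 1]), (19, [1, 2]), (20, [2, 3]), (21, [3, 4]), (22, [4, 5]),
  (23, [0, 5]), (6, [1, 19]), (7, [2, 20]), (8, [3, 21]), (9, [4, 22]), (10, [5, 23]),
  (11, [0, 18]), (12, [6, 11]), (13, [6, 7, 12]), (14, [7, 8, 13]), (15, [8, 9, 14]),
  (16, [9, 10, 15]), (17, [10, 11, 12, 16])]

lemma search : go [(0, []), (1, []), (2, []), (3, []), (4, []), (5, [])]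
    (fun f => go L1 (fun _ => true) f && go L2 (fun _ => true) f) (fun _ => 3) = false := by
  decide +kernel

lemma nocol : IsEmpty (G.Coloring (Fin 3)) := ⟨fun C => by
  let c : ℕ → ℕ := fun x => C (Fin.ofNat 35 x)
  have hc : ∀ x, c x < 3 := fun x => (C _).2
  have h : ∀ p ∈ L1 ++ L2, ∀ w ∈ p.2, c w ≠ c p.1 := fun p hp w hw e => C.valid
    ((by decide +kernel : ∀ p ∈ L1 ++ L2, ∀ w ∈ p.2, aG (Fin.ofNat 35 w) (Fin.ofNat 35 p.1))
      p hp w hw) (Fin.ext e)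
  refine absurd (search.symm.trans (go_true c hc _ (fun f hf => ?_) _ (by simp) _ (by simp)))
    (by simp)
  rw [go_true c hc _ (by simp) L1 (fun p hp => h p (List.mem_append_left _ hp)) f hf,
    go_true c hc _ (by simp) L2 (fun p hp => h p (List.mem_append_right _ hp)) f hf]
  rfl⟩

def col (x : Fin 35) : Fin 3 := [0, 0, 0, 1, 1, 2, 1, 0, 0, 1, 2, 2, 0, 2, 1, 2, 0, 1, 1, 0, 2, 2, 2,
  1, 1, 2, 1, 2, 0, 2, 1, 0, 1, 2, 0].getD x 0

lemma colv : ∀ x y : Fin 35, (aG x y ∧ ¬aR x y) ∨ aR (σ x) (σ y) → col x ≠ col y := by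
  decide +kernel

theorem result : ∃ (V : Type) (_ : Finite V) (G : SimpleGraph V) (R : G.Subgraph) (n : ℕ)
    (v : ZMod n → V) (σ : V → V), 0 < n ∧ IsRotor G R n v ∧ (∀ i, σ (v i) = v (-i)) ∧
      (∀ x, (∀ i, x ≠ v i) → σ x = x) ∧
      ∃ k, 0 < k ∧ Nat.card (G.Coloring (Fin k)) ≠ Nat.card ((flip G R σ).Coloring (Fin k)) := by
  refine ⟨Fin 35, inferInstance, G, R, 6, v, σ, by norm_num, rotor,
    (by decide : ∀ i : Fin 6, σ (v i) = v (-i)),
    (by decide : ∀ x : Fin 35, (∀ i : Fin 6, x ≠ v i) → σ x = x), 3, by norm_num, ?_⟩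
  have := nocol
  have : Nonempty ((flip G R σ).Coloring (Fin 3)) := ⟨SimpleGraph.Coloring.mk col fun {x y} h =>
    h.2.elim (colv x y) fun h => (colv y x h).symm⟩
  have : Finite ((flip G R σ).Coloring (Fin 3)) :=
    Finite.of_injective (fun C => (C : Fin 35 → Fin 3)) DFunLike.coe_injective
  rw [Nat.card_of_isEmpty]
  exact Nat.card_pos.ne

end Pool.Agent.Results.MP_366529_co.Example
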